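import Pool.Agent.Lib_helper43.OC.Q1

/-!
Found by two seats of the team (helper24: the chord diagram; helper43: certificate and topology).

There is a circle graph with 37 vertices whose independence complex is not homotopy equivalent
to any wedge of spheres: the independence complex is acyclic modulo 3 but not modulo 2.
-/

set_option autoImplicit false

namespace Pool.Agent.Results.MP_dce81a_co.NotWedge

open Pool.Agent.OC

/-- There is a circle graph `G` with 37 vertices whose independence complex is not homotopy
equivalent to a wedge of spheres `S^(d 0) ∨ ... ∨ S^(d (k-1))`, for any number `k ≥ 0` of spheres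
and any dimensions. -/
theorem result : ∃ G : SimpleGraph (Fin 37), IsCircleGraph G ∧
    ∀ (k : ℕ) (d : Fin k → ℕ),
      IsEmpty (ContinuousMap.HomotopyEquiv (Geo (IndC G)) (Wedge d)) := by
  refine ⟨gr 37 (row 96 D37.M) (chkSy_sound D37.symm_ok), chkW_sound _ D37.word_ok, ?_⟩
  intro k d
  exact not_wedge (R₁ := ZMod 3) (R₂ := ZMod 2) (down_indC _) (empty_mem_indC _)
    ((acyc_gr (by norm_num) _).2 D37.acyc3)
    (fun h => D37.not_acyc2 ((acyc_gr (by norm_num) _).1 h)) d

end Pool.Agent.Results.MP_dce81a_co.NotWedge
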